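import Pool.Agent.K7.H54.FI.Col3

/-!
# Project FI, job COL
-/

set_option autoImplicit false

namespace Pool.Agent.K7.H54.FI

open Pool.Agent.K7.H15.Irr Pool.Agent.K7.H12.FI

/-- JOB COL -/
theorem col (hDiff : StDiff) (hSplit : StSplit) (hSL : StSL) (hLB2 : StLB2) (hSize : StSize) :
    StCol := by
  classical
  intro X _ F hW h3 hstar
  obtain ⟨c0, hc0, A1, hA1⟩ := hLB2 X F hW h3
  obtain ⟨C, hC, A2, hA2⟩ := hSize X F hW h3
  obtain ⟨k, hk⟩ : ∃ k, k = Nat.card X := ⟨_, rfl⟩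
  obtain ⟨A3, hA3⟩ := exists_nat_gt
    ((k * (xb X + 1) * (2 * C + 2 * k * xb X * C) * k + (2 * C + 1)) / c0)
  refine ⟨A1 + A2 + A3 + 1, ?_⟩
  intro P h a B x hOk g i j j' hjj
  obtain ⟨A, hA⟩ : ∃ A, A = A1 + A2 + A3 + 1 := ⟨_, rfl⟩
  rw [← hA] at hOk
  have hLB := hA1 P h a B x (ok_mono hOk (by omega))
  obtain ⟨-, -, hbB, S1, -, han, hR, S2, S3, S4, -, S5⟩ :=
    hA2 P h a B x (ok_mono hOk (by omega))
  have hA1' : 1 ≤ A := by omega
  have ha1 : 1 ≤ a := hA1'.trans hOk.ha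
  have hb1 : 1 ≤ P.b := le_trans (by
    have : 1 ≤ A * a ^ 2 := Nat.one_le_iff_ne_zero.2 (by positivity)
    exact this) hOk.hb
  have hB1 : 1 ≤ B := le_trans (by
    have : 1 ≤ A * a * P.b := Nat.one_le_iff_ne_zero.2 (by positivity)
    exact this) hOk.hB
  have hA3' : (k * (xb X + 1) * (2 * C + 2 * k * xb X * C) * k + (2 * C + 1)) / c0 < (A : ℝ) := by
    refine hA3.trans_le ?_
    rw [hA]
    push_cast
    have : (0 : ℝ) ≤ A1 := Nat.cast_nonneg _
    have : (0 : ℝ) ≤ A2 := Nat.cast_nonneg _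
    linarith
  obtain ⟨ar1, ar2, hn0⟩ := arith X (Vt P) k (xb X) a B P.b P.m A (Nat.card (Vt P)) C c0 hk.symm rfl
    (by omega) hC hc0 ha1 hB1 hA1' hA3' hOk.hb hbB (by exact_mod_cast han)
  haveI : Nonempty (Vt P) := ⟨bk g i j⟩
  have hjne : j ≠ j' := fun e => by rw [e] at hjj; omega
  -- names
  obtain ⟨v, hv⟩ : ∃ v, v = bk g i j := ⟨_, rfl⟩
  obtain ⟨v', hv'⟩ : ∃ v', v' = bk g i j' := ⟨_, rfl⟩
  obtain ⟨G, hG⟩ : ∃ G, G = gph F P h := ⟨_, rfl⟩
  obtain ⟨H, hH⟩ : ∃ H, H = img F P.ρ h := ⟨_, rfl⟩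
  have hOver : Over H cl G := by rw [hG, hH]; exact over_gph F P h
  have hmem : ∀ a c : Vt P, c ∈ nb G a ↔ H.underlying.Adj (cl a) (cl c) ∧ ¬ Mis P (lab a) (lab c) := by
    rw [hG, hH]; exact mem_nb F P h
  have hvv : v ≠ v' := by
    rw [hv, hv']
    intro e
    exact hjne (bk_inj e).2.2
  obtain ⟨f, hf⟩ : ∃ f : Set (Vt P) → ℝ, f = fun Q => mu F (upd H cl G v Q) (E1 v v') := ⟨_, rfl⟩
  have hD : D F G v - D F G v' = f (nb G v) - f (nb G v') := by
    rw [hf]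
    exact hDiff X (Vt P) F H cl G hOver v v' hvv (by rw [hv, hv']; rfl)
  obtain ⟨cj, hcj⟩ : ∃ cj : Fin P.b, P.blk j = cj := ⟨⟨P.blk j, hOk.blk_lt j j.2⟩, rfl⟩
  obtain ⟨cj', hcj'⟩ : ∃ cj' : Fin P.b, P.blk j' = cj' := ⟨⟨P.blk j', hOk.blk_lt j' j'.2⟩, rfl⟩
  obtain ⟨K, hK⟩ : ∃ K : Finset (Vt P), (K : Set (Vt P)) = nb G v \ nb G v' :=
    ⟨(Set.toFinite _).toFinset, Set.Finite.coe_toFinset _⟩
  have hmK : ∀ y, y ∈ K ↔ y ∈ nb G v ∧ y ∉ nb G v' := fun y => by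
    rw [← Finset.mem_coe, hK]; exact Iff.rfl
  obtain ⟨U0, hU0⟩ : ∃ U0 : Set (Vt P), U0 = nb G v ∩ nb G v' := ⟨_, rfl⟩
  have hUK : U0 ∪ (K : Set (Vt P)) = nb G v := by
    rw [hU0, hK]
    exact Set.inter_union_diff _ _
  have hsw : ∀ y ∈ K, sw j cj y ∉ nb G v ∧ sw j cj y ∈ nb G v' ∧
      ∀ g1 i1 j1, sw j cj y ≠ bk g1 i1 j1 := by
    intro y hy
    obtain ⟨h1, h2⟩ := (hmK y).1 hy
    rw [hG, hv] at h1
    rw [hG, hv'] at h2
    have := sw_props F P h g i j j' hjj cj hcj h1 h2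
    rw [hG, hv, hv']
    exact this
  have hKb : ∀ y ∈ K, ∀ g1 i1 j1, y ≠ bk g1 i1 j1 := by
    intro y hy g1 i1 j1 e
    obtain ⟨h1, h2⟩ := (hmK y).1 hy
    rw [hG, hv] at h1
    rw [hG, hv'] at h2
    obtain ⟨-, hyc⟩ := k_cases F P h g i j j' h1 h2
    rcases hyc with ⟨g2, c2, l2, rfl, -⟩ | ⟨g2, rfl⟩
    · have := congrArg lab e
      simp [lab, tt, bk] at this
    · have := congrArg lab e
      simp [lab, ww, bk] at this
  -- bulk vertices
  have hbulk : ∀ Q : Set (Vt P), U0 ⊆ Q → Q ⊆ U0 ∪ (K : Set (Vt P)) ∪ sw j cj '' K →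
      ∀ (g1 : Cls P) (i1 : Fin (P.r g1.1)) (b : Fin P.m),
        bk g1 i1 b ∈ Q ↔ H.underlying.Adj g.1 g1.1 := by
    intro Q hQ1 hQ2 g1 i1 b
    constructor
    · intro hb
      rcases hQ2 hb with (hb | hb) | ⟨y, hy, hyb⟩
      · rw [hU0] at hb
        have := ((hmem v _).1 hb.1).1
        rw [hv] at this
        exact this
      · exact absurd rfl (hKb _ (Finset.mem_coe.1 hb) g1 i1 b)
      · exact absurd hyb ((hsw y (Finset.mem_coe.1 hy)).2.2 g1 i1 b)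
    · intro hadj
      apply hQ1
      rw [hU0]
      constructor
      · rw [hmem, hv]
        exact ⟨hadj, fun hn => hn⟩
      · rw [hmem, hv']
        exact ⟨hadj, fun hn => hn⟩
  -- one step
  obtain ⟨M, hM⟩ : ∃ M : ℝ, M = ((2 * C * (a * B)) +
    (Nat.card X * (xb X * a) * (2 * B) : ℕ) * (C * a)) * err X (Vt P) 4 := ⟨_, rfl⟩
  have hM0 : 0 ≤ M := by
    rw [hM]
    unfold err
    positivity
  have hst : ∀ y ∈ K, ∀ Q : Set (Vt P), U0 ⊆ Q → Q ⊆ U0 ∪ (K : Set (Vt P)) ∪ sw j cj '' K →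
      y ∉ Q → sw j cj y ∉ Q → ∃ cost : ℝ, cost ≤ M ∧ f (insert y Q) ≤ f (insert (sw j cj y) Q) + cost ∧
      ∀ c, c ≠ v → c ≠ v' → c ∈ nb G (sw j cj y) → c ∉ nb G y →
      (∀ g1 i1 j1, c ≠ bk g1 i1 j1) → ∃ T : Set (Vt P), v ∈ T ∧ c ∈ T ∧
      (∀ u, u ∈ nb G (sw j cj y) → u ∈ nb G y → u = v' ∨ u ∈ T) ∧
      f (insert y Q) + mu F (upd H cl (upd H cl G v (insert (sw j cj y) Q)) (sw j cj y) T)
          (fun φ => (E1 v v' φ ∧ y ∉ Set.range φ ∧ Uses F v (sw j cj y) φ) ∧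
            Uses F (sw j cj y) c φ) ≤ f (insert (sw j cj y) Q) + cost := by
    intro y hy Q hQ1 hQ2 hyQ hzQ
    obtain ⟨h1, h2⟩ := (hmK y).1 hy
    rw [hG, hv] at h1
    rw [hG, hv'] at h2
    have := stepK hSL F P h A a B x hOk ha1 hB1 C hC S1 S2 S3 S4 g i j j' hjj cj hcj y h1 h2 Q hzQ hyQ
      (fun g1 i1 b b' => (hbulk Q hQ1 hQ2 g1 i1 b).trans (hbulk Q hQ1 hQ2 g1 i1 b').symm)
    rw [hM, hf, hG, hH, hv, hv']
    exact this
  -- the path
  obtain ⟨y1, hy1⟩ := g.2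
  obtain ⟨y2, y3, h12, h23, h13⟩ := exists_path F hW hstar y1
  obtain ⟨g2, hg2⟩ : ∃ g2 : Cls P, g2.1 = P.ρ y2 := ⟨⟨P.ρ y2, y2, rfl⟩, rfl⟩
  obtain ⟨g3, hg3⟩ : ∃ g3 : Cls P, g3.1 = P.ρ y3 := ⟨⟨P.ρ y3, y3, rfl⟩, rfl⟩
  have ad12 : H.underlying.Adj g.1 g2.1 := by
    rw [hH, ← hy1, hg2]
    exact adj_img h h12
  have ad23 : H.underlying.Adj g2.1 g3.1 := by
    rw [hH, hg2, hg3]
    exact adj_img h h23
  have hwK : ∀ g1 : Cls P, H.underlying.Adj g.1 g1.1 → ww g1 j' ∈ K := by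
    intro g1 hg1
    rw [hmK, hmem, hmem, hv, hv']
    refine ⟨⟨hg1, fun hn => ?_⟩, fun hn => hn.2 rfl⟩
    have hn' : (j : ℕ) = j' := hn
    omega
  obtain ⟨y0, hy0⟩ : ∃ y0 : Vt P, y0 = ww g2 j' := ⟨_, rfl⟩
  have hy0K : y0 ∈ K := by
    rw [hy0]
    exact hwK g2 ad12
  have hz0 : sw j cj y0 = ww g2 j := by rw [hy0, sw_ww]
  -- the moves
  have hmv := move f U0 K (sw j cj) M
    (fun y hy => by
      rw [hU0]
      exact ⟨fun hn => ((hmK y).1 hy).2 hn.2, fun hn => (hsw y hy).1 hn.1⟩)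
    (by
      rw [hK, hG, hv, hv']
      exact sw_inj F P h g i j j' cj)
    (fun y hy y2 hy2 e => ((hmK y2).1 hy2).2 (e ▸ (hsw y hy).2.1))
    (fun y hy Q hQ1 hQ2 hyQ hzQ => by
      obtain ⟨cost, k1, k2, -⟩ := hst y hy Q hQ1 hQ2 hyQ hzQ
      linarith)
    (K.erase y0) (Finset.erase_subset _ _)
  rw [hUK] at hmv
  obtain ⟨Q, hQ⟩ : ∃ Q : Set (Vt P), Q = U0 ∪ sw j cj '' (K.erase y0 : Finset (Vt P)) := ⟨_, rfl⟩
  have e1 : U0 ∪ ((K : Set (Vt P)) \ (K.erase y0 : Finset (Vt P))) ∪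
      sw j cj '' (K.erase y0 : Finset (Vt P)) = insert y0 Q := by
    rw [hQ]
    ext u
    simp only [Set.mem_union, Set.mem_diff, Finset.mem_coe, Set.mem_insert_iff, Finset.mem_erase,
      not_and, not_not]
    constructor
    · rintro ((hu | ⟨hu, hu'⟩) | hu)
      · exact Or.inr (Or.inl hu)
      · by_contra hne
        have : u ≠ y0 := fun e => hne (Or.inl e)
        exact hu' this hu
      · exact Or.inr (Or.inr hu)
    · rintro (rfl | (hu | hu))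
      · exact Or.inl (Or.inr ⟨hy0K, fun hn => absurd rfl hn⟩)
      · exact Or.inl (Or.inl hu)
      · exact Or.inr hu
  rw [e1] at hmv
  have hQ1 : U0 ⊆ Q := by
    rw [hQ]
    exact Set.subset_union_left
  have hQ2 : Q ⊆ U0 ∪ (K : Set (Vt P)) ∪ sw j cj '' K := by
    rw [hQ]
    rintro u (hu | ⟨y, hy, hyu⟩)
    · exact Or.inl (Or.inl hu)
    · exact Or.inr ⟨y, Finset.mem_coe.2 (Finset.mem_of_mem_erase (Finset.mem_coe.1 hy)), hyu⟩
  have hsinj : Set.InjOn (sw j cj) (K : Set (Vt P)) := by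
    rw [hK, hG, hv, hv']
    exact sw_inj F P h g i j j' cj
  have hy0Q : y0 ∉ Q := by
    rw [hQ]
    rintro (hu | ⟨y, hy, hyu⟩)
    · rw [hU0] at hu
      exact ((hmK y0).1 hy0K).2 hu.2
    · have hyK := Finset.mem_of_mem_erase (Finset.mem_coe.1 hy)
      exact ((hmK y0).1 hy0K).2 (hyu ▸ (hsw y hyK).2.1)
  have hz0Q : sw j cj y0 ∉ Q := by
    rw [hQ]
    rintro (hu | ⟨y, hy, hyu⟩)
    · rw [hU0] at hu
      exact (hsw y0 hy0K).1 hu.1
    · have hy' := Finset.mem_coe.1 hy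
      have := hsinj (Finset.mem_coe.2 (Finset.mem_of_mem_erase hy')) (Finset.mem_coe.2 hy0K) hyu
      exact Finset.ne_of_mem_erase hy' this
  obtain ⟨cost, k1, -, k3⟩ := hst y0 hy0K Q hQ1 hQ2 hy0Q hz0Q
  -- the vertex `u`
  have hj'm : (j' : ℕ) < P.m := j'.2
  obtain ⟨ju, hju⟩ : ∃ ju : Fin P.m, (ju : ℕ) = P.m - 2 - j := ⟨⟨P.m - 2 - j, by omega⟩, rfl⟩
  obtain ⟨u, hu⟩ : ∃ u : Vt P, u = ww g3 ju := ⟨_, rfl⟩
  have hclu : cl u = g3.1 := by rw [hu]; rfl
  have hub : ∀ g1 i1 j1, u ≠ bk g1 i1 j1 := by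
    intro g1 i1 j1 e
    rw [hu] at e
    have := congrArg lab e
    simp [lab, ww, bk] at this
  have huz : u ∈ nb G (sw j cj y0) := by
    rw [hz0, hmem, hu]
    refine ⟨ad23, fun hn => ?_⟩
    have hn' : P.m < (j : ℕ) + ju + 2 := hn
    omega
  have huy : u ∉ nb G y0 := by
    rw [hy0, hmem, hu]
    intro hn
    apply hn.2
    show P.m < (j' : ℕ) + ju + 2
    omega
  obtain ⟨T, hvT, huT, hT, hgain⟩ := k3 u (by rw [hv]; exact hub _ _ _) (by rw [hv']; exact hub _ _ _)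
    huz huy hub
  have hlb := hLB y1 y2 y3 v v' (sw j cj y0) y0 u (insert (sw j cj y0) Q) T h12 h23 h13
    (by rw [hv]; exact hy1.symm) (by rw [hz0]; exact hg2) (by rw [hclu]; exact hg3) hvv
    (by rw [hv, hv']; rfl) (by
      rw [hz0, hy0]
      intro e
      exact hjne (ww_inj e).2)
    (by rw [hz0, hy0]; rfl) (by rw [hv]; exact (hub _ _ _).symm) (by rw [hv']; exact (hub _ _ _).symm)
    (Or.inl rfl)
    (by
      intro had
      have ad13 : H.underlying.Adj g.1 g3.1 := by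
        rw [hH, ← hy1, hg3]
        exact adj_img h had
      right
      have hne1 : ju ≠ j' := by
        intro e
        have := congrArg Fin.val e
        rw [hju] at this
        obtain ⟨m2, hm2⟩ := hOk.even
        omega
      by_cases hju2 : ju = j
      · rw [hQ]
        right
        refine ⟨ww g3 j', Finset.mem_coe.2 (Finset.mem_erase.2 ⟨?_, hwK g3 ad13⟩), ?_⟩
        · rw [hy0]
          intro e
          have e2 := (ww_inj e).1
          rw [e2] at ad23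
          exact H.underlying.loopless.irrefl _ ad23
        · rw [sw_ww, hu, hju2]
      · apply hQ1
        rw [hU0]
        constructor
        · rw [hmem, hv, hu]
          refine ⟨ad13, fun hn => hju2 ?_⟩
          have hn' : (j : ℕ) = ju := hn
          exact Fin.ext hn'.symm
        · rw [hmem, hv', hu]
          refine ⟨ad13, fun hn => hne1 ?_⟩
          have hn' : (j' : ℕ) = ju := hn
          exact Fin.ext hn'.symm)
    hvT huT
    (by
      rw [← hH]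
      have hsub : {y : Vt P | (∃ g i j, y = bk g i j) ∧
          ((H.underlying.Adj (cl v) (cl y) ∧ y ∉ insert (sw j cj y0) Q) ∨
          (H.underlying.Adj (cl (sw j cj y0)) (cl y) ∧ y ∉ T))} ⊆
          insert v' ({y | H.underlying.Adj (cl (sw j cj y0)) (cl y) ∧ (∃ g i j, y = bk g i j) ∧
            y ∉ nb G (sw j cj y0)} ∪ {y | H.underlying.Adj (cl y0) (cl y) ∧
            (∃ g i j, y = bk g i j) ∧ y ∉ nb G y0}) := by
        rintro y ⟨⟨g1, i1, j1, rfl⟩, hc | ⟨hc, hcT⟩⟩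
        · exfalso
          apply hc.2
          right
          rw [hbulk Q hQ1 hQ2]
          have := hc.1
          rw [hv] at this
          exact this
        · by_cases hz1 : bk g1 i1 j1 ∈ nb G (sw j cj y0)
          · by_cases hz2 : bk g1 i1 j1 ∈ nb G y0
            · rcases hT _ hz1 hz2 with hz3 | hz3
              · exact Or.inl hz3
              · exact absurd hz3 hcT
            · right; right
              refine ⟨?_, ⟨g1, i1, j1, rfl⟩, hz2⟩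
              rw [hz0] at hc
              rw [hy0]
              exact hc
          · right; left
            exact ⟨hc, ⟨g1, i1, j1, rfl⟩, hz1⟩
      have q1 := S5 (sw j cj y0)
      have q2 := S5 y0
      rw [← hG, ← hH] at q1 q2
      have q3 := (Set.ncard_le_ncard hsub (Set.toFinite _)).trans
        ((Set.ncard_insert_le _ _).trans (Nat.succ_le_succ (Set.ncard_union_le _ _)))
      have q4 : ({y : Vt P | (∃ g i j, y = bk g i j) ∧
          ((H.underlying.Adj (cl v) (cl y) ∧ y ∉ insert (sw j cj y0) Q) ∨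
          (H.underlying.Adj (cl (sw j cj y0)) (cl y) ∧ y ∉ T))}.ncard : ℝ) ≤
          ({y | H.underlying.Adj (cl (sw j cj y0)) (cl y) ∧ (∃ g i j, y = bk g i j) ∧
            y ∉ nb G (sw j cj y0)}.ncard : ℝ) + ({y | H.underlying.Adj (cl y0) (cl y) ∧
            (∃ g i j, y = bk g i j) ∧ y ∉ nb G y0}.ncard : ℝ) + 1 := by
        exact_mod_cast q3
      linarith)
  rw [← hG, ← hH] at hlb
  -- monotonicity
  have hmono : f (insert (sw j cj y0) Q) ≤ f (nb G v') := by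
    rw [hf]
    apply (hSplit X (Vt P) F H cl G v (E1 v v')).1
    rintro w (hw | hw)
    · rw [hw]
      exact (hsw y0 hy0K).2.1
    · rw [hQ] at hw
      rcases hw with hw | ⟨y, hy, hyw⟩
      · rw [hU0] at hw
        exact hw.2
      · rw [← hyw]
        exact (hsw y (Finset.mem_of_mem_erase (Finset.mem_coe.1 hy))).2.1
  have hcardK : K.card ≤ k * (xb X * a + 1) := by
    rw [← Set.ncard_coe_finset, hK, hG, hv, hv', hk]
    exact kcard F P h g i j j' (xb X * a) hR cj' hcj'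
  have hcardE : ((K.erase y0).card : ℝ) + 1 ≤ ((k * (xb X * a + 1) : ℕ) : ℝ) := by
    have e2 : (K.erase y0).card + 1 = K.card := Finset.card_erase_add_one hy0K
    have : (K.erase y0).card + 1 ≤ k * (xb X * a + 1) := by omega
    exact_mod_cast this
  have hKM : (((K.erase y0).card : ℝ) + 1) * M < c0 * err X (Vt P) 3 := by
    refine lt_of_le_of_lt (mul_le_mul_of_nonneg_right hcardE hM0) ?_
    rw [hM, ← hk]
    exact ar1
  rw [← hG]
  rw [← hv, ← hv']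
  nlinarith

end Pool.Agent.K7.H54.FI
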