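import Pool.Agent.K7.H12.FI.Conc

/-!
# Project FI, job COL: preparations
-/

set_option autoImplicit false

namespace Pool.Agent.K7.H54.FI

open Pool.Agent.K7.H15.Irr Pool.Agent.K7.H12.FI

/-- replace the elements of `K` one after the other -/
theorem move {V : Type} (f : Set V → ℝ) (U0 : Set V) (K : Finset V) (z : V → V) (M : ℝ)
    (hU : ∀ y ∈ K, y ∉ U0 ∧ z y ∉ U0) (hinj : Set.InjOn z (K : Set V))
    (hne : ∀ y ∈ K, ∀ y2 ∈ K, z y ≠ y2)
    (hstep : ∀ y ∈ K, ∀ P : Set V, U0 ⊆ P → P ⊆ U0 ∪ (K : Set V) ∪ z '' K → y ∉ P → z y ∉ P →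
      f (insert y P) ≤ f (insert (z y) P) + M) :
    ∀ S : Finset V, S ⊆ K →
      f (U0 ∪ (K : Set V)) ≤ f (U0 ∪ ((K : Set V) \ S) ∪ z '' S) + S.card * M := by
  classical
  intro S
  induction S using Finset.induction_on with
  | empty =>
    intro _
    simp
  | insert y S hy ih =>
    intro hS
    have hyK : y ∈ K := hS (Finset.mem_insert_self y S)
    have hSK : S ⊆ K := fun a ha => hS (Finset.mem_insert_of_mem ha)
    have h1 := ih hSK
    obtain ⟨P, hP⟩ : ∃ P : Set V, P = U0 ∪ ((K : Set V) \ (insert y S : Finset V)) ∪ z '' S :=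
      ⟨_, rfl⟩
    have e1 : U0 ∪ ((K : Set V) \ S) ∪ z '' S = insert y P := by
      rw [hP]
      ext a
      simp only [Set.mem_union, Set.mem_diff, Finset.mem_coe, Set.mem_insert_iff,
        Finset.mem_insert, not_or]
      constructor
      · rintro ((h | ⟨h, h'⟩) | h)
        · exact Or.inr (Or.inl (Or.inl h))
        · by_cases hay : a = y
          · exact Or.inl hay
          · exact Or.inr (Or.inl (Or.inr ⟨h, hay, h'⟩))
        · exact Or.inr (Or.inr h)
      · rintro (h | (h | ⟨h, h', h''⟩) | h)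
        · rw [h]; exact Or.inl (Or.inr ⟨hyK, hy⟩)
        · exact Or.inl (Or.inl h)
        · exact Or.inl (Or.inr ⟨h, h''⟩)
        · exact Or.inr h
    have e2 : U0 ∪ ((K : Set V) \ (insert y S : Finset V)) ∪ z '' (insert y S : Finset V) =
        insert (z y) P := by
      rw [hP]
      ext a
      simp only [Finset.coe_insert, Set.image_insert_eq, Set.mem_union, Set.mem_insert_iff]
      tauto
    have hyP : y ∉ P := by
      rw [hP]
      rintro ((h | h) | ⟨y2, h2, h⟩)
      · exact (hU y hyK).1 h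
      · exact h.2 (Finset.mem_coe.2 (Finset.mem_insert_self y S))
      · exact hne y2 (hSK (Finset.mem_coe.1 h2)) y hyK h
    have hzP : z y ∉ P := by
      rw [hP]
      rintro ((h | h) | ⟨y2, h2, h⟩)
      · exact (hU y hyK).2 h
      · exact hne y hyK _ (Finset.mem_coe.1 h.1) rfl
      · have := hinj (Finset.mem_coe.2 (hSK (Finset.mem_coe.1 h2))) (Finset.mem_coe.2 hyK) h
        rw [this] at h2
        exact hy (Finset.mem_coe.1 h2)
    have hPsub : P ⊆ U0 ∪ (K : Set V) ∪ z '' K := by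
      rw [hP]
      rintro a ((h | h) | ⟨y2, h2, h⟩)
      · exact Or.inl (Or.inl h)
      · exact Or.inl (Or.inr h.1)
      · exact Or.inr ⟨y2, Finset.mem_coe.2 (hSK (Finset.mem_coe.1 h2)), h⟩
    have h2 := hstep y hyK P (by rw [hP]; exact fun a ha => Or.inl (Or.inl ha)) hPsub hyP hzP
    rw [e2, Finset.card_insert_of_notMem hy]
    rw [e1] at h1
    push_cast
    linarith

variable {X : Type}

theorem mis_comm (P : Par X) (a b : Lab) : Mis P a b ↔ Mis P b a := by
  cases a <;> cases b <;> simp [Mis, add_comm]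

theorem adj_iff (F : OrientedGraph X) (P : Par X) (h : IsHom F F P.ρ) (a c : Vt P) :
    (gph F P h).underlying.Adj a c ↔
      (img F P.ρ h).underlying.Adj (cl a) (cl c) ∧ ¬ Mis P (lab a) (lab c) := by
  show ((img F P.ρ h).Arc (cl a) (cl c) ∧ ¬ Mis P (lab a) (lab c)) ∨
    ((img F P.ρ h).Arc (cl c) (cl a) ∧ ¬ Mis P (lab c) (lab a)) ↔ _
  rw [mis_comm P (lab c) (lab a)]
  show _ ↔ ((img F P.ρ h).Arc (cl a) (cl c) ∨ (img F P.ρ h).Arc (cl c) (cl a)) ∧ _
  tauto

theorem mem_nb (F : OrientedGraph X) (P : Par X) (h : IsHom F F P.ρ) (a c : Vt P) :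
    c ∈ nb (gph F P h) a ↔
      (img F P.ρ h).underlying.Adj (cl a) (cl c) ∧ ¬ Mis P (lab a) (lab c) :=
  adj_iff F P h a c

theorem over_gph (F : OrientedGraph X) (P : Par X) (h : IsHom F F P.ρ) :
    Over (img F P.ρ h) cl (gph F P h) := fun _ _ hab => hab.1

theorem vt_cases {P : Par X} (y : Vt P) :
    (∃ g i j, y = bk g i j) ∨ (∃ g c l, y = tt g c l) ∨ ∃ g j, y = ww g j := by
  obtain ⟨g, (⟨i, j⟩ | (⟨c, l⟩ | j))⟩ := y
  · exact Or.inl ⟨g, i, j, rfl⟩
  · exact Or.inr (Or.inl ⟨g, c, l, rfl⟩)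
  · exact Or.inr (Or.inr ⟨g, j, rfl⟩)

theorem adj_img {F : OrientedGraph X} {ρ : X → X} (h : IsHom F F ρ) {x y : X}
    (hxy : F.underlying.Adj x y) : (img F ρ h).underlying.Adj (ρ x) (ρ y) := by
  rcases hxy with hxy | hxy
  · exact Or.inl ⟨x, y, hxy, rfl, rfl⟩
  · exact Or.inr ⟨y, x, hxy, rfl, rfl⟩

/-- a path with three vertices from every vertex -/
theorem exists_path (F : OrientedGraph X) (hc : F.WeaklyConnected)
    (hs : ∀ c : X, ∃ x y, F.Arc x y ∧ x ≠ c ∧ y ≠ c) (y1 : X) :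
    ∃ y2 y3, F.underlying.Adj y1 y2 ∧ F.underlying.Adj y2 y3 ∧ y1 ≠ y3 := by
  by_contra hno
  push Not at hno
  obtain ⟨x, y, hxy, hx, hy⟩ := hs y1
  -- every vertex reachable from `y1` is `y1` or a neighbour of `y1`
  have key : ∀ (a b : X), F.underlying.Walk a b → (a = y1 ∨ F.underlying.Adj y1 a) →
      (b = y1 ∨ F.underlying.Adj y1 b) := by
    intro a b w
    induction w with
    | nil => exact id
    | cons hab _ ih =>
      intro ha
      apply ih
      rcases ha with rfl | ha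
      · exact Or.inr hab
      · exact Or.inl (hno _ _ ha hab).symm
  obtain ⟨w⟩ := hc.preconnected y1 x
  rcases key y1 x w (Or.inl rfl) with h | h
  · exact hx h
  · exact hy (hno x y h (Or.inl hxy)).symm

end Pool.Agent.K7.H54.FI
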