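import Pool.Agent.K7.H54.FI.Col0

/-!
# Project FI, job COL: one step
-/

set_option autoImplicit false

namespace Pool.Agent.K7.H54.FI

open Pool.Agent.K7.H15.Irr Pool.Agent.K7.H12.FI

variable {X : Type}

/-- a map of the columns, applied to the bulk -/
def cm {P : Par X} (π : Fin P.m → Fin P.m) : Vt P → Vt P
  | ⟨g, Sum.inl (i, j)⟩ => ⟨g, Sum.inl (i, π j)⟩
  | y => y

theorem cm_bk {P : Par X} (π : Fin P.m → Fin P.m) (g : Cls P) (i : Fin (P.r g.1)) (j : Fin P.m) :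
    cm π (bk g i j) = bk g i (π j) := rfl

theorem bk_inj {P : Par X} {g g' : Cls P} {i : Fin (P.r g.1)} {i' : Fin (P.r g'.1)}
    {j j' : Fin P.m} (h : bk g i j = bk g' i' j') : g = g' ∧ (i : ℕ) = i' ∧ j = j' := by
  unfold bk at h
  obtain ⟨h1, h2⟩ := Sigma.mk.inj_iff.1 h
  subst h1
  have h3 := Sum.inl_injective (eq_of_heq h2)
  rw [Prod.mk.injEq] at h3
  exact ⟨rfl, congrArg Fin.val h3.1, h3.2⟩

/-- the set of the moved vertices -/
def mv {P : Par X} (F : OrientedGraph X) (h : IsHom F F P.ρ) (J : Set (Fin P.m)) (l : ℕ) (q : X)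
    (v : Vt P) : Set (Vt P) :=
  {y | ∃ (g : Cls P) (i : Fin (P.r g.1)) (j : Fin P.m), y = bk g i j ∧ j ∈ J ∧ l ≤ (i : ℕ) ∧
    (img F P.ρ h).underlying.Adj q g.1 ∧ y ≠ v}

theorem mv_ncard [Finite X] {P : Par X} (F : OrientedGraph X) (h : IsHom F F P.ρ)
    (J : Set (Fin P.m)) (l : ℕ) (q : X) (v : Vt P) (r0 : ℕ) (hr : ∀ g : Cls P, P.r g.1 ≤ r0) :
    (mv F h J l q v).ncard ≤ Nat.card X * r0 * J.ncard := by
  classical
  haveI := Fintype.ofFinite (Cls P)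
  have h1 : mv F h J l q v ⊆ Set.range
      (fun t : (Σ g : Cls P, Fin (P.r g.1)) × J => bk t.1.1 t.1.2 t.2.1) := by
    rintro y ⟨g, i, j, rfl, hj, -⟩
    exact ⟨(⟨g, i⟩, ⟨j, hj⟩), rfl⟩
  have h2 : (Set.range
      (fun t : (Σ g : Cls P, Fin (P.r g.1)) × J => bk t.1.1 t.1.2 t.2.1)).ncard ≤
      Nat.card ((Σ g : Cls P, Fin (P.r g.1)) × J) := by
    rw [← Set.image_univ]
    refine (Set.ncard_image_le Set.finite_univ).trans ?_
    rw [Set.ncard_univ]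
  refine (Set.ncard_le_ncard h1 (Set.toFinite _)).trans (h2.trans ?_)
  rw [Nat.card_prod, Nat.card_sigma]
  have h3 : ∑ g : Cls P, Nat.card (Fin (P.r g.1)) ≤ Nat.card X * r0 := by
    calc ∑ g : Cls P, Nat.card (Fin (P.r g.1)) ≤ ∑ _g : Cls P, r0 := by
          refine Finset.sum_le_sum fun g _ => ?_
          rw [Nat.card_fin]
          exact hr g
      _ = Nat.card (Cls P) * r0 := by
          rw [Finset.sum_const, Finset.card_univ, smul_eq_mul, Nat.card_eq_fintype_card]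
      _ ≤ Nat.card X * r0 := Nat.mul_le_mul_right _
          (Nat.card_le_card_of_injective (fun g : Cls P => g.1) Subtype.val_injective)
  have h4 : Nat.card J = J.ncard := rfl
  rw [h4]
  exact Nat.mul_le_mul_right _ h3

/-- one step: the data of the statement `StSL` -/
theorem step [Finite X] (hSL : StSL) (F : OrientedGraph X) (P : Par X) (h : IsHom F F P.ρ)
    (g : Cls P) (i : Fin (P.r g.1)) (j j' : Fin P.m) (hjj : (j : ℕ) + 1 = (j' : ℕ))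
    (z z' : Vt P) (hzz : z ≠ z') (hcl : cl z = cl z')
    (hgz : (img F P.ρ h).underlying.Adj g.1 (cl z)) (J : Set (Fin P.m)) (π : Fin P.m → Fin P.m)
    (l : ℕ) (hjJ : j ∈ J) (hπj : π j = j') (hinj : Set.InjOn π J) (hdisj : ∀ a ∈ J, π a ∉ J)
    (hz0 : ∀ y, y ∈ nb (gph F P h) z' → y ∉ nb (gph F P h) z →
      ∃ (g1 : Cls P) (i1 : Fin (P.r g1.1)) (j1 : Fin P.m), y = bk g1 i1 j1 ∧ j1 ∈ J ∧ l ≤ (i1 : ℕ))
    (hz : ∀ (g1 : Cls P) (i1 : Fin (P.r g1.1)) (j1 : Fin P.m),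
      (img F P.ρ h).underlying.Adj (cl z) g1.1 → j1 ∈ J → l ≤ (i1 : ℕ) →
      bk g1 i1 j1 ∉ nb (gph F P h) z ∧ bk g1 i1 (π j1) ∈ nb (gph F P h) z ∧
      bk g1 i1 (π j1) ∉ nb (gph F P h) z')
    (Q : Set (Vt P)) (hzQ : z ∉ Q) (hz'Q : z' ∉ Q)
    (hbulk : ∀ (g1 : Cls P) (i1 : Fin (P.r g1.1)) (a b : Fin P.m), bk g1 i1 a ∈ Q ↔ bk g1 i1 b ∈ Q) :
    ∃ cost : ℝ, (∀ (C : ℝ) (r0 n0 : ℕ), 0 ≤ C → (∀ g1 : Cls P, P.r g1.1 ≤ r0) → J.ncard ≤ n0 →
      (∀ (g1 : Cls P) (i1 i2 : Fin (P.r g1.1)) (j1 j2 : Fin P.m),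
      ((sd (gph F P h) (bk g1 i1 j1) (bk g1 i2 j2)).ncard : ℝ) ≤ C) →
      cost ≤ (((sd (gph F P h) z z' : Set (Vt P)).ncard : ℝ) + (Nat.card X * r0 * n0 : ℕ) * C) *
        err X (Vt P) 4) ∧
    mu F (upd (img F P.ρ h) cl (gph F P h) (bk g i j) (insert z' Q)) (E1 (bk g i j) (bk g i j')) ≤
      mu F (upd (img F P.ρ h) cl (gph F P h) (bk g i j) (insert z Q)) (E1 (bk g i j) (bk g i j')) +
        cost ∧
    ∀ c, c ≠ bk g i j → c ≠ bk g i j' → c ∈ nb (gph F P h) z → c ∉ nb (gph F P h) z' →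
      (∀ g1 i1 j1, c ≠ bk g1 i1 j1) → ∃ T : Set (Vt P),
      bk g i j ∈ T ∧ c ∈ T ∧
      (∀ y, y ∈ nb (gph F P h) z → y ∈ nb (gph F P h) z' → y = bk g i j' ∨ y ∈ T) ∧
      mu F (upd (img F P.ρ h) cl (gph F P h) (bk g i j) (insert z' Q)) (E1 (bk g i j) (bk g i j')) +
        mu F (upd (img F P.ρ h) cl (upd (img F P.ρ h) cl (gph F P h) (bk g i j) (insert z Q)) z T)
          (fun φ => (E1 (bk g i j) (bk g i j') φ ∧ z' ∉ Set.range φ ∧ Uses F (bk g i j) z φ) ∧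
            Uses F z c φ) ≤
      mu F (upd (img F P.ρ h) cl (gph F P h) (bk g i j) (insert z Q)) (E1 (bk g i j) (bk g i j')) +
        cost := by
  classical
  haveI : Nonempty (Vt P) := ⟨z⟩
  obtain ⟨v, hv⟩ : ∃ v, v = bk g i j := ⟨_, rfl⟩
  obtain ⟨v', hv'⟩ : ∃ v', v' = bk g i j' := ⟨_, rfl⟩
  obtain ⟨G, hG⟩ : ∃ G, G = gph F P h := ⟨_, rfl⟩
  obtain ⟨H, hH⟩ : ∃ H, H = img F P.ρ h := ⟨_, rfl⟩
  have hOver : Over H cl G := by rw [hG, hH]; exact over_gph F P h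
  have hmem : ∀ a c : Vt P, c ∈ nb G a ↔ H.underlying.Adj (cl a) (cl c) ∧ ¬ Mis P (lab a) (lab c) := by
    rw [hG, hH]; exact mem_nb F P h
  have hjne : j ≠ j' := fun e => by rw [e] at hjj; omega
  have hvv : v ≠ v' := by
    rw [hv, hv']
    intro e
    exact hjne (bk_inj e).2.2
  obtain ⟨I, hI⟩ : ∃ I : Finset (Vt P), (I : Set (Vt P)) = mv F h J l (cl z) v :=
    ⟨(Set.toFinite (mv F h J l (cl z) v)).toFinset, Set.Finite.coe_toFinset _⟩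
  obtain ⟨U, hU⟩ : ∃ U : Set (Vt P), U = (nb G z ∩ nb G z') \ {v, v'} := ⟨_, rfl⟩
  have hmI : ∀ y, y ∈ I ↔ y ∈ mv F h J l (cl z) v := fun y => by
    rw [← hI]; exact Finset.mem_coe.symm
  rw [← hv, ← hv', ← hG, ← hH]
  rw [← hG] at hz0
  rw [← hG, ← hH] at hz
  have hclne : cl v ≠ cl z := by
    rw [hv]
    intro e
    have e2 : g.1 = cl z := e
    rw [e2] at hgz
    exact (img F P.ρ h).underlying.loopless.irrefl _ hgz
  -- the conditions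
  have A1 : ∀ y ∈ I, y ∉ U ∧ cm π y ∉ U ∧ y ≠ v ∧ cm π y ≠ v ∧ y ≠ v' ∧ cm π y ≠ v' ∧
      cl y ≠ cl z ∧ cl y = cl (cm π y) ∧ (y ∈ Q ↔ cm π y ∈ Q) := by
    intro y hy
    obtain ⟨g1, i1, j1, rfl, hj1, hl, hadj, hyv⟩ := (hmI y).1 hy
    have hadj' : H.underlying.Adj (cl z) g1.1 := by rw [hH]; exact hadj
    obtain ⟨h1, h2, h3⟩ := hz g1 i1 j1 hadj' hj1 hl
    rw [cm_bk]
    refine ⟨?_, ?_, hyv, ?_, ?_, ?_, ?_, rfl, hbulk g1 i1 j1 (π j1)⟩
    · rw [hU]; exact fun hm => h1 hm.1.1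
    · rw [hU]; exact fun hm => h3 hm.1.2
    · rw [hv]
      intro e
      have := (bk_inj e).2.2
      rw [← this] at hjJ
      exact hdisj j1 hj1 hjJ
    · rw [hv']
      intro e
      have := (bk_inj e).2.2
      rw [this, ← hπj] at hj1
      exact hdisj j hjJ hj1
    · rw [hv']
      intro e
      obtain ⟨e1, e2, e3⟩ := bk_inj e
      rw [← hπj] at e3
      have e4 := hinj hj1 hjJ e3
      apply hyv
      subst e1
      have e5 : i1 = i := Fin.ext e2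
      rw [e5, e4, hv]
    · intro e
      have e2 : g1.1 = cl z := e
      rw [e2] at hadj
      exact (img F P.ρ h).underlying.loopless.irrefl _ hadj
  have A2 : Set.InjOn (cm π) (I : Set (Vt P)) := by
    intro y hy y2 hy2 e
    obtain ⟨g1, i1, j1, rfl, hj1, -⟩ := (hmI y).1 (Finset.mem_coe.1 hy)
    obtain ⟨g2, i2, j2, rfl, hj2, -⟩ := (hmI y2).1 (Finset.mem_coe.1 hy2)
    rw [cm_bk, cm_bk] at e
    obtain ⟨e1, e2, e3⟩ := bk_inj e
    subst e1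
    rw [hinj hj1 hj2 e3, Fin.ext e2]
  have A3 : ∀ y ∈ I, ∀ y2 ∈ I, y ≠ cm π y2 := by
    intro y hy y2 hy2 e
    obtain ⟨g1, i1, j1, rfl, hj1, -⟩ := (hmI y).1 hy
    obtain ⟨g2, i2, j2, rfl, hj2, -⟩ := (hmI y2).1 hy2
    rw [cm_bk] at e
    have := (bk_inj e).2.2
    rw [this] at hj1
    exact hdisj j2 hj2 hj1
  have A4 : ∀ c, c ∈ nb G z' → c ≠ v → c ≠ v' → c ∈ U ∪ id '' (I : Set (Vt P)) := by
    intro c hc hcv hcv'
    by_cases hcz : c ∈ nb G z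
    · left
      rw [hU]
      exact ⟨⟨hcz, hc⟩, by rintro (e | e); exacts [hcv e, hcv' e]⟩
    · right
      obtain ⟨g1, i1, j1, rfl, hj1, hl⟩ := hz0 c hc hcz
      refine ⟨_, Finset.mem_coe.2 ((hmI _).2 ⟨g1, i1, j1, rfl, hj1, hl, ?_, hcv⟩), rfl⟩
      have := ((hmem z' _).1 hc).1
      rw [← hcl, hH] at this
      exact this
  have A5 : ∀ c, c ∈ U ∪ cm π '' (I : Set (Vt P)) → c ≠ v → c ≠ v' → c ∈ nb G z := by
    rintro c (hc | ⟨y, hy, rfl⟩) hcv hcv'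
    · rw [hU] at hc
      exact hc.1.1
    · obtain ⟨g1, i1, j1, rfl, hj1, hl, hadj, hyv⟩ := (hmI y).1 (Finset.mem_coe.1 hy)
      rw [cm_bk]
      exact (hz g1 i1 j1 (by rw [hH]; exact hadj) hj1 hl).2.1
  have hmain := hSL X (Vt P) F H cl G hOver v v' z z' hvv hzz (by rw [hv, hv']; rfl) hcl hclne Q hzQ
    hz'Q (Vt P) I id (cm π) U A1 (Set.injOn_id _) A2 A3 A4 A5
  obtain ⟨cost, hcost⟩ : ∃ cost : ℝ, cost = (((sd G z z' : Set (Vt P)).ncard : ℝ) +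
    ∑ i ∈ I, ((sd G (id i) (cm π i)).ncard : ℝ)) * err X (Vt P) 4 := ⟨_, rfl⟩
  rw [← hcost] at hmain
  refine ⟨cost, ?_, hmain.1, ?_⟩
  · intro C r0 n0 hC hr hn hsd
    rw [hcost]
    have herr : 0 ≤ err X (Vt P) 4 := by
      unfold err; positivity
    apply mul_le_mul_of_nonneg_right _ herr
    have h1 : ∑ i ∈ I, ((sd G (id i) (cm π i)).ncard : ℝ) ≤ ∑ _i ∈ I, C := by
      refine Finset.sum_le_sum fun y hy => ?_
      obtain ⟨g1, i1, j1, rfl, -⟩ := (hmI y).1 hy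
      exact hsd g1 i1 i1 j1 (π j1)
    have h2 : I.card ≤ Nat.card X * r0 * n0 := by
      rw [← Set.ncard_coe_finset, hI]
      exact (mv_ncard F h J l (cl z) v r0 hr).trans (Nat.mul_le_mul_left _ hn)
    have h3 : ∑ _i ∈ I, C ≤ (Nat.card X * r0 * n0 : ℕ) * C := by
      rw [Finset.sum_const, nsmul_eq_mul]
      exact mul_le_mul_of_nonneg_right (by exact_mod_cast h2) hC
    linarith
  · intro c hcv hcv' hcz hcz' hcb
    have hcn : c ∉ U ∪ cm π '' (I : Set (Vt P)) := by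
      rintro (hc | ⟨y, hy, hyc⟩)
      · rw [hU] at hc
        exact hcz' hc.1.2
      · obtain ⟨g1, i1, j1, rfl, -⟩ := (hmI y).1 (Finset.mem_coe.1 hy)
        rw [cm_bk] at hyc
        exact hcb _ _ _ hyc.symm
    refine ⟨insert c (insert v (U ∪ cm π '' (I : Set (Vt P)))), Or.inr (Or.inl rfl), Or.inl rfl, ?_,
      hmain.2 c hcv hcv' hcz hcn⟩
    intro y hy hy'
    by_cases h1 : y = v'
    · exact Or.inl h1
    by_cases h2 : y = v
    · exact Or.inr (Or.inr (Or.inl h2))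
    · right; right; right; left
      rw [hU]
      exact ⟨⟨hy, hy'⟩, by rintro (e | e); exacts [h2 e, h1 e]⟩

end Pool.Agent.K7.H54.FI
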