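import Pool.Agent.K7.H54.FI.Col1

/-!
# Project FI, job COL: the two kinds of steps
-/

set_option autoImplicit false

namespace Pool.Agent.K7.H54.FI

open Pool.Agent.K7.H15.Irr Pool.Agent.K7.H12.FI

variable {X : Type}

/-- the hub of `v` that replaces the hub -/
def sw {P : Par X} (j : Fin P.m) (cj : Fin P.b) : Vt P → Vt P
  | ⟨g, Sum.inr (Sum.inl (_, l))⟩ => ⟨g, Sum.inr (Sum.inl (cj, l))⟩
  | ⟨g, Sum.inr (Sum.inr _)⟩ => ⟨g, Sum.inr (Sum.inr j)⟩
  | y => y

theorem sw_tt {P : Par X} (j : Fin P.m) (cj : Fin P.b) (g : Cls P) (c : Fin P.b)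
    (l : Fin (P.R g.1)) : sw j cj (tt g c l) = tt g cj l := rfl

theorem sw_ww {P : Par X} (j : Fin P.m) (cj : Fin P.b) (g : Cls P) (j1 : Fin P.m) :
    sw j cj (ww g j1) = ww g j := rfl

theorem ww_inj {P : Par X} {g g' : Cls P} {j j' : Fin P.m} (h : ww g j = ww g' j') :
    g = g' ∧ j = j' := by
  unfold ww at h
  obtain ⟨h1, h2⟩ := Sigma.mk.inj_iff.1 h
  subst h1
  exact ⟨rfl, Sum.inr_injective (Sum.inr_injective (eq_of_heq h2))⟩

theorem tt_inj {P : Par X} {g g' : Cls P} {c c' : Fin P.b} {l : Fin (P.R g.1)}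
    {l' : Fin (P.R g'.1)} (h : tt g c l = tt g' c' l') : g = g' ∧ c = c' ∧ (l : ℕ) = l' := by
  unfold tt at h
  obtain ⟨h1, h2⟩ := Sigma.mk.inj_iff.1 h
  subst h1
  have h3 := Sum.inl_injective (Sum.inr_injective (eq_of_heq h2))
  rw [Prod.mk.injEq] at h3
  exact ⟨rfl, h3.1, congrArg Fin.val h3.2⟩

theorem exists_pi {m : ℕ} (blk : ℕ → ℕ) (c n : ℕ) (j j' : Fin m) (hj : blk j = c)
    (hj' : blk j' = c + 1) (h1 : {a : ℕ | a < m ∧ blk a = c}.ncard = n)
    (h2 : {a : ℕ | a < m ∧ blk a = c + 1}.ncard = n + 1) :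
    ∃ π : Fin m → Fin m, π j = j' ∧ Set.InjOn π {a : Fin m | blk a = c} ∧
      ∀ a : Fin m, blk a = c → blk (π a) = c + 1 := by
  classical
  have hcard : ∀ c : ℕ, {a : ℕ | a < m ∧ blk a = c}.ncard =
      (Finset.univ.filter fun a : Fin m => blk a = c).card := by
    intro c
    have : {a : ℕ | a < m ∧ blk a = c} =
        Fin.val '' ((Finset.univ.filter fun a : Fin m => blk a = c : Finset (Fin m)) :
          Set (Fin m)) := by
      ext a
      simp only [Set.mem_setOf_eq, Set.mem_image, Finset.mem_coe, Finset.mem_filter,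
        Finset.mem_univ, true_and]
      constructor
      · rintro ⟨ha, hb⟩
        exact ⟨⟨a, ha⟩, hb, rfl⟩
      · rintro ⟨x, hx, rfl⟩
        exact ⟨x.2, hx⟩
    rw [this, Set.ncard_image_of_injective _ Fin.val_injective, Set.ncard_coe_finset]
  obtain ⟨S, hS⟩ : ∃ S, S = (Finset.univ.filter fun a : Fin m => blk a = c).erase j := ⟨_, rfl⟩
  obtain ⟨T, hT⟩ : ∃ T, T = (Finset.univ.filter fun a : Fin m => blk a = c + 1).erase j' :=
    ⟨_, rfl⟩
  have hSc : S.card = n - 1 := by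
    rw [hS, Finset.card_erase_of_mem (by simp [hj]), ← hcard, h1]
  have hTc : T.card = n := by
    rw [hT, Finset.card_erase_of_mem (by simp [hj']), ← hcard, h2]
    rfl
  have hTm : ∀ a ∈ T, a ≠ j' ∧ blk a = c + 1 := by
    intro a ha
    rw [hT, Finset.mem_erase, Finset.mem_filter] at ha
    exact ⟨ha.1, ha.2.2⟩
  obtain ⟨e⟩ : Nonempty (S ↪ T) := by
    apply Function.Embedding.nonempty_of_card_le
    simp only [Fintype.card_coe]
    omega
  refine ⟨fun a => if a = j then j' else if ha : a ∈ S then (e ⟨a, ha⟩ : Fin m) else a,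
    by simp, ?_, ?_⟩
  · intro a ha a2 ha2 haa
    have mS : ∀ a : Fin m, blk a = c → a ≠ j → a ∈ S := by
      intro a ha haj
      rw [hS]
      simp [ha, haj]
    have hne : ∀ s : S, (e s : Fin m) ≠ j' := by
      intro s
      exact (hTm _ (e s).2).1
    by_cases e1 : a = j
    · by_cases e2 : a2 = j
      · rw [e1, e2]
      · have m2 := mS a2 ha2 e2
        simp only [e1, if_true, if_neg e2, dif_pos m2] at haa
        exact absurd haa.symm (hne _)
    · have m1 := mS a ha e1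
      by_cases e2 : a2 = j
      · simp only [if_neg e1, dif_pos m1, e2, if_true] at haa
        exact absurd haa (hne _)
      · have m2 := mS a2 ha2 e2
        simp only [if_neg e1, dif_pos m1, if_neg e2, dif_pos m2] at haa
        have := e.injective (Subtype.ext haa)
        exact congrArg Subtype.val this
  · intro a ha
    by_cases e1 : a = j
    · simp only [e1, if_true]
      exact hj'
    · have m1 : a ∈ S := by
        rw [hS]
        simp [ha, e1]
      simp only [if_neg e1, dif_pos m1]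
      exact (hTm _ (e ⟨a, m1⟩).2).2

/-- the neighbours of `bk g i j` that are not neighbours of `bk g i j'` -/
theorem k_cases (F : OrientedGraph X) (P : Par X) (h : IsHom F F P.ρ) (g : Cls P)
    (i : Fin (P.r g.1)) (j j' : Fin P.m) {y : Vt P} (hy : y ∈ nb (gph F P h) (bk g i j))
    (hy' : y ∉ nb (gph F P h) (bk g i j')) :
    (img F P.ρ h).underlying.Adj g.1 (cl y) ∧
    ((∃ g1 c1 l1, y = tt g1 c1 l1 ∧ P.blk j' = c1 ∧ (l1 : ℕ) ≤ i ∧ P.blk j ≠ P.blk j') ∨
      ∃ g1, y = ww g1 j') := by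
  rw [mem_nb] at hy hy'
  have hadj : (img F P.ρ h).underlying.Adj g.1 (cl y) := hy.1
  refine ⟨hadj, ?_⟩
  have h1 : ¬ Mis P (.bulk i j) (lab y) := hy.2
  have h2 : Mis P (.bulk i j') (lab y) := by
    by_contra hn
    exact hy' ⟨hadj, hn⟩
  rcases vt_cases y with ⟨g1, i1, j1, rfl⟩ | ⟨g1, c1, l1, rfl⟩ | ⟨g1, j1, rfl⟩
  · exact absurd h2 (by simp [lab, bk, Mis])
  · left
    have h2' : P.blk j' = c1 ∧ (l1 : ℕ) ≤ i := h2
    have h1' : ¬ (P.blk j = c1 ∧ (l1 : ℕ) ≤ i) := h1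
    refine ⟨g1, c1, l1, rfl, h2'.1, h2'.2, fun e => h1' ⟨e.trans h2'.1, h2'.2⟩⟩
  · right
    have h2' : (j' : ℕ) = j1 := h2
    exact ⟨g1, by rw [show j1 = j' from Fin.ext h2'.symm]⟩

/-- the step for an element of `N(v) \ N(v')` -/
theorem stepK [Finite X] (hSL : StSL) (F : OrientedGraph X) (P : Par X) (h : IsHom F F P.ρ)
    (A a B : ℕ) (x : X → ℕ) (hOk : Ok F P h A a B x) (ha1 : 1 ≤ a) (hB1 : 1 ≤ B)
    (C : ℝ) (hC : 0 < C)
    (S1 : ∀ c : ℕ, {j : ℕ | j < P.m ∧ P.blk j = c}.ncard ≤ 2 * B)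
    (S2 : ∀ (g : Cls P) (i i' : Fin (P.r g.1)) (j j' : Fin P.m),
      ((sd (gph F P h) (bk g i j) (bk g i' j')).ncard : ℝ) ≤ C * a)
    (S3 : ∀ (g : Cls P) (c c' : Fin P.b) (l l' : Fin (P.R g.1)),
      ((sd (gph F P h) (tt g c l) (tt g c' l')).ncard : ℝ) ≤ C * (a * B))
    (S4 : ∀ (g : Cls P) (j j' : Fin P.m), ((sd (gph F P h) (ww g j) (ww g j')).ncard : ℝ) ≤
      C * (a + |((j : ℕ) : ℝ) - ((j' : ℕ) : ℝ)|))
    (g : Cls P) (i : Fin (P.r g.1)) (j j' : Fin P.m) (hjj : (j : ℕ) + 1 = (j' : ℕ))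
    (cj : Fin P.b) (hcj : P.blk j = cj)
    (y : Vt P) (hy : y ∈ nb (gph F P h) (bk g i j)) (hy' : y ∉ nb (gph F P h) (bk g i j'))
    (Q : Set (Vt P)) (hzQ : sw j cj y ∉ Q) (hz'Q : y ∉ Q)
    (hbulk : ∀ (g1 : Cls P) (i1 : Fin (P.r g1.1)) (a b : Fin P.m), bk g1 i1 a ∈ Q ↔ bk g1 i1 b ∈ Q) :
    ∃ cost : ℝ, cost ≤ ((2 * C * (a * B)) + (Nat.card X * (xb X * a) * (2 * B) : ℕ) * (C * a)) *
        err X (Vt P) 4 ∧
    mu F (upd (img F P.ρ h) cl (gph F P h) (bk g i j) (insert y Q)) (E1 (bk g i j) (bk g i j')) ≤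
      mu F (upd (img F P.ρ h) cl (gph F P h) (bk g i j) (insert (sw j cj y) Q))
        (E1 (bk g i j) (bk g i j')) + cost ∧
    ∀ c, c ≠ bk g i j → c ≠ bk g i j' → c ∈ nb (gph F P h) (sw j cj y) →
      c ∉ nb (gph F P h) y →
      (∀ g1 i1 j1, c ≠ bk g1 i1 j1) → ∃ T : Set (Vt P),
      bk g i j ∈ T ∧ c ∈ T ∧
      (∀ u, u ∈ nb (gph F P h) (sw j cj y) → u ∈ nb (gph F P h) y → u = bk g i j' ∨ u ∈ T) ∧
      mu F (upd (img F P.ρ h) cl (gph F P h) (bk g i j) (insert y Q)) (E1 (bk g i j) (bk g i j')) +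
        mu F (upd (img F P.ρ h) cl (upd (img F P.ρ h) cl (gph F P h) (bk g i j)
          (insert (sw j cj y) Q)) (sw j cj y) T)
          (fun φ => (E1 (bk g i j) (bk g i j') φ ∧ y ∉ Set.range φ ∧
            Uses F (bk g i j) (sw j cj y) φ) ∧ Uses F (sw j cj y) c φ) ≤
      mu F (upd (img F P.ρ h) cl (gph F P h) (bk g i j) (insert (sw j cj y) Q))
        (E1 (bk g i j) (bk g i j')) + cost := by
  classical
  obtain ⟨hadj, hyc⟩ := k_cases F P h g i j j' hy hy'
  have hjne : j ≠ j' := fun e => by rw [e] at hjj; omega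
  have hr : ∀ g1 : Cls P, P.r g1.1 ≤ xb X * a := fun g1 => by
    rw [hOk.hr g1]
    exact Nat.mul_le_mul_right _ (hOk.hx g1).2
  have herr : 0 ≤ err X (Vt P) 4 := by unfold err; positivity
  have haR : (1 : ℝ) ≤ a := by exact_mod_cast ha1
  have hBR : (1 : ℝ) ≤ B := by exact_mod_cast hB1
  have hCa : 0 ≤ C * a := by positivity
  rcases hyc with ⟨g1, c1, l1, rfl, hc1, hl1, hne⟩ | ⟨g1, rfl⟩
  · -- row hubs
    have hb1 : P.blk j' = P.blk j + 1 := by
      have h1 := hOk.blk_mono j (by rw [hjj]; exact j'.2)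
      rw [hjj] at h1
      rcases h1 with h1 | h1
      · exact absurd h1.symm hne
      · exact h1
    rw [sw_tt] at *
    have hcc : (c1 : ℕ) = (cj : ℕ) + 1 := by rw [← hc1, hb1, hcj]
    obtain ⟨π, hπj, hπi, hπb⟩ := exists_pi P.blk (P.blk j) (B + P.blk j) j j' rfl hb1
      (hOk.blk_card _ (by rw [hcj]; exact cj.2))
      (by rw [hOk.blk_card _ (by rw [hcj, ← hcc]; exact c1.2)]; ring)
    obtain ⟨cost, k1, k2, k3⟩ := step hSL F P h g i j j' hjj (tt g1 cj l1) (tt g1 c1 l1)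
      (fun e => by
        have := (tt_inj e).2.1
        rw [this] at hcc
        omega) rfl hadj {a : Fin P.m | P.blk a = P.blk j} π l1 rfl hπj hπi
      (fun b hb hb2 => by
        have h1 := hπb b hb
        have h2 : P.blk (π b) = P.blk j := hb2
        omega)
      (by
        intro u hu hu'
        rw [mem_nb] at hu hu'
        have h1 : ¬ Mis P (.t c1 l1) (lab u) := hu.2
        have h2 : Mis P (.t cj l1) (lab u) := by
          by_contra hn
          exact hu' ⟨hu.1, hn⟩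
        rcases vt_cases u with ⟨g2, i2, j2, rfl⟩ | ⟨g2, c2, l2, rfl⟩ | ⟨g2, j2, rfl⟩
        · have h2' : P.blk j2 = cj ∧ (l1 : ℕ) ≤ i2 := h2
          exact ⟨g2, i2, j2, rfl, h2'.1.trans hcj.symm, h2'.2⟩
        · exact absurd h2 (by simp [lab, tt, Mis])
        · exact absurd trivial h1)
      (by
        intro g2 i2 j2 hadj2 hj2 hl2
        have hj2' : P.blk j2 = P.blk j := hj2
        refine ⟨fun hn => ?_, ?_, fun hn => ?_⟩
        · rw [mem_nb] at hn
          exact hn.2 ⟨hj2'.trans hcj, hl2⟩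
        · rw [mem_nb]
          refine ⟨hadj2, fun hn => ?_⟩
          have hn' : P.blk (π j2) = cj ∧ (l1 : ℕ) ≤ i2 := hn
          have := hπb j2 hj2'
          rw [hn'.1, hcj] at this
          omega
        · rw [mem_nb] at hn
          apply hn.2
          show P.blk (π j2) = c1 ∧ (l1 : ℕ) ≤ i2
          refine ⟨?_, hl2⟩
          rw [hπb j2 hj2', hcj, hcc])
      Q hzQ hz'Q hbulk
    refine ⟨cost, ?_, k2, k3⟩
    have hJ : ({a : Fin P.m | P.blk a = P.blk j} : Set (Fin P.m)).ncard ≤ 2 * B := by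
      refine le_trans ?_ (S1 (P.blk j))
      rw [← Set.ncard_image_of_injective _ Fin.val_injective]
      apply Set.ncard_le_ncard
      · rintro _ ⟨b, hb, rfl⟩
        exact ⟨b.2, hb⟩
      · exact (Set.finite_lt_nat P.m).subset fun b hb => hb.1
    refine (k1 (C * a) (xb X * a) (2 * B) hCa hr hJ fun g2 i1 i2 j1 j2 => S2 g2 i1 i2 j1 j2).trans ?_
    apply mul_le_mul_of_nonneg_right _ herr
    have := S3 g1 cj c1 l1 l1
    have h5 : 0 ≤ C * (a * B) := by positivity
    linarith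
  · -- column hubs
    rw [sw_ww] at *
    obtain ⟨cost, k1, k2, k3⟩ := step hSL F P h g i j j' hjj (ww g1 j) (ww g1 j')
      (fun e => hjne (ww_inj e).2) rfl hadj {j} (fun b => if b = j then j' else b) 0 rfl (by simp)
      (Set.injOn_singleton _ _)
      (fun b hb hb2 => by
        have h1 : b = j := hb
        rw [if_pos h1] at hb2
        exact hjne (show j' = j from hb2).symm)
      (by
        intro u hu hu'
        rw [mem_nb] at hu hu'
        have h1 : ¬ Mis P (.w j') (lab u) := hu.2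
        have h2 : Mis P (.w j) (lab u) := by
          by_contra hn
          exact hu' ⟨hu.1, hn⟩
        rcases vt_cases u with ⟨g2, i2, j2, rfl⟩ | ⟨g2, c2, l2, rfl⟩ | ⟨g2, j2, rfl⟩
        · have h2' : (j2 : ℕ) = j := h2
          exact ⟨g2, i2, j2, rfl, Fin.ext h2', Nat.zero_le _⟩
        · exact absurd trivial h1
        · have h1' : ¬ (P.m < (j' : ℕ) + j2 + 2) := h1
          have h2' : P.m < (j : ℕ) + j2 + 2 := h2
          omega)
      (by
        intro g2 i2 j2 hadj2 hj2 hl2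
        have hj2' : j2 = j := hj2
        subst hj2'
        refine ⟨fun hn => ?_, ?_, fun hn => ?_⟩
        · rw [mem_nb] at hn
          exact hn.2 rfl
        · rw [mem_nb]
          refine ⟨hadj2, fun hn => ?_⟩
          rw [if_pos rfl] at hn
          have hn' : (j' : ℕ) = j2 := hn
          omega
        · rw [mem_nb] at hn
          apply hn.2
          rw [if_pos rfl]
          exact rfl)
      Q hzQ hz'Q hbulk
    refine ⟨cost, ?_, k2, k3⟩
    have hJ : ({j} : Set (Fin P.m)).ncard ≤ 2 * B := by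
      rw [Set.ncard_singleton]
      omega
    refine (k1 (C * a) (xb X * a) (2 * B) hCa hr hJ fun g2 i1 i2 j1 j2 => S2 g2 i1 i2 j1 j2).trans ?_
    apply mul_le_mul_of_nonneg_right _ herr
    have h4 := S4 g1 j j'
    have h5 : |((j : ℕ) : ℝ) - ((j' : ℕ) : ℝ)| = 1 := by
      rw [← hjj]
      push_cast
      rw [show ((j : ℕ) : ℝ) - ((j : ℕ) + 1) = -1 by ring]
      simp
    rw [h5] at h4
    have h6 : C * (a + 1) ≤ 2 * C * (a * B) := by
      have h7 : (a : ℝ) + 1 ≤ 2 * (a * B) := by nlinarith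
      calc C * (a + 1) ≤ C * (2 * (a * B)) := mul_le_mul_of_nonneg_left h7 hC.le
        _ = _ := by ring
    linarith

end Pool.Agent.K7.H54.FI
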