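import Pool.Agent.K7.H54.FI.Col2

/-!
# Project FI, job COL: the set of the moved vertices and the constants
-/

set_option autoImplicit false

namespace Pool.Agent.K7.H54.FI

open Pool.Agent.K7.H15.Irr Pool.Agent.K7.H12.FI

variable {X : Type}

theorem sw_props (F : OrientedGraph X) (P : Par X) (h : IsHom F F P.ρ) (g : Cls P)
    (i : Fin (P.r g.1)) (j j' : Fin P.m) (hjj : (j : ℕ) + 1 = (j' : ℕ)) (cj : Fin P.b)
    (hcj : P.blk j = cj) {y : Vt P} (hy : y ∈ nb (gph F P h) (bk g i j))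
    (hy' : y ∉ nb (gph F P h) (bk g i j')) :
    sw j cj y ∉ nb (gph F P h) (bk g i j) ∧ sw j cj y ∈ nb (gph F P h) (bk g i j') ∧
      ∀ g1 i1 j1, sw j cj y ≠ bk g1 i1 j1 := by
  obtain ⟨hadj, hyc⟩ := k_cases F P h g i j j' hy hy'
  rcases hyc with ⟨g1, c1, l1, rfl, hc1, hl1, hne⟩ | ⟨g1, rfl⟩
  · rw [sw_tt]
    refine ⟨fun hn => ?_, ?_, fun g2 i2 j2 e => ?_⟩
    · rw [mem_nb] at hn
      exact hn.2 ⟨hcj, hl1⟩
    · rw [mem_nb]
      refine ⟨hadj, fun hn => ?_⟩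
      have hn' : P.blk j' = cj ∧ (l1 : ℕ) ≤ i := hn
      exact hne (hcj.trans hn'.1.symm)
    · have := congrArg lab e
      simp [lab, tt, bk] at this
  · rw [sw_ww]
    refine ⟨fun hn => ?_, ?_, fun g2 i2 j2 e => ?_⟩
    · rw [mem_nb] at hn
      exact hn.2 rfl
    · rw [mem_nb]
      refine ⟨hadj, fun hn => ?_⟩
      have hn' : (j' : ℕ) = j := hn
      omega
    · have := congrArg lab e
      simp [lab, ww, bk] at this

theorem sw_inj (F : OrientedGraph X) (P : Par X) (h : IsHom F F P.ρ) (g : Cls P)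
    (i : Fin (P.r g.1)) (j j' : Fin P.m) (cj : Fin P.b) :
    Set.InjOn (sw j cj) (nb (gph F P h) (bk g i j) \ nb (gph F P h) (bk g i j')) := by
  rintro y ⟨hy, hy'⟩ y2 ⟨hy2, hy2'⟩ e
  obtain ⟨-, hyc⟩ := k_cases F P h g i j j' hy hy'
  obtain ⟨-, hyc2⟩ := k_cases F P h g i j j' hy2 hy2'
  rcases hyc with ⟨g1, c1, l1, rfl, hc1, -⟩ | ⟨g1, rfl⟩
  · rcases hyc2 with ⟨g2, c2, l2, rfl, hc2, -⟩ | ⟨g2, rfl⟩
    · rw [sw_tt, sw_tt] at e
      obtain ⟨e1, -, e3⟩ := tt_inj e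
      subst e1
      rw [Fin.ext e3, show c1 = c2 from Fin.ext (hc1.symm.trans hc2)]
    · rw [sw_tt, sw_ww] at e
      have := congrArg lab e
      simp [lab, tt, ww] at this
  · rcases hyc2 with ⟨g2, c2, l2, rfl, hc2, -⟩ | ⟨g2, rfl⟩
    · rw [sw_tt, sw_ww] at e
      have := congrArg lab e
      simp [lab, tt, ww] at this
    · rw [sw_ww, sw_ww] at e
      rw [(ww_inj e).1]

theorem kcard [Finite X] (F : OrientedGraph X) (P : Par X) (h : IsHom F F P.ρ) (g : Cls P)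
    (i : Fin (P.r g.1)) (j j' : Fin P.m) (r0 : ℕ) (hR : ∀ g1 : Cls P, P.R g1.1 ≤ r0)
    (cj' : Fin P.b) (hcj' : P.blk j' = cj') :
    (nb (gph F P h) (bk g i j) \ nb (gph F P h) (bk g i j')).ncard ≤ Nat.card X * (r0 + 1) := by
  classical
  haveI := Fintype.ofFinite (Cls P)
  have h1 : (nb (gph F P h) (bk g i j) \ nb (gph F P h) (bk g i j')) ⊆ Set.range
      (fun t : (Σ g : Cls P, Option (Fin (P.R g.1))) =>
        match t with
        | ⟨g1, some l⟩ => tt g1 cj' l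
        | ⟨g1, none⟩ => ww g1 j') := by
    rintro y ⟨hy, hy'⟩
    obtain ⟨-, hyc⟩ := k_cases F P h g i j j' hy hy'
    rcases hyc with ⟨g1, c1, l1, rfl, hc1, -⟩ | ⟨g1, rfl⟩
    · refine ⟨⟨g1, some l1⟩, ?_⟩
      rw [show c1 = cj' from Fin.ext (hc1.symm.trans hcj')]
    · exact ⟨⟨g1, none⟩, rfl⟩
  refine (Set.ncard_le_ncard h1 (Set.toFinite _)).trans ?_
  rw [← Set.image_univ]
  refine (Set.ncard_image_le Set.finite_univ).trans ?_
  rw [Set.ncard_univ, Nat.card_sigma]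
  calc ∑ g : Cls P, Nat.card (Option (Fin (P.R g.1))) ≤ ∑ _g : Cls P, (r0 + 1) := by
        refine Finset.sum_le_sum fun g _ => ?_
        rw [Finite.card_option, Nat.card_fin]
        exact Nat.succ_le_succ (hR g)
    _ = Nat.card (Cls P) * (r0 + 1) := by
        rw [Finset.sum_const, Finset.card_univ, smul_eq_mul, Nat.card_eq_fintype_card]
    _ ≤ Nat.card X * (r0 + 1) := Nat.mul_le_mul_right _
        (Nat.card_le_card_of_injective (fun g : Cls P => g.1) Subtype.val_injective)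

theorem ok_mono {F : OrientedGraph X} {P : Par X} {h : IsHom F F P.ρ} {A A' a B : ℕ} {x : X → ℕ}
    (hOk : Ok F P h A a B x) (hA : A' ≤ A) : Ok F P h A' a B x where
  hx := hOk.hx
  hr := hOk.hr
  ratio := hOk.ratio
  Rup := hOk.Rup
  Rex := hOk.Rex
  blk_lt := hOk.blk_lt
  blk_mono := hOk.blk_mono
  blk_card := hOk.blk_card
  even := hOk.even
  ha := hA.trans hOk.ha
  hb := (Nat.mul_le_mul_right _ hA).trans hOk.hb
  hB := (Nat.mul_le_mul_right _ (Nat.mul_le_mul_right _ hA)).trans hOk.hB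

/-- the arithmetic -/
theorem arith (X V : Type) (k xbk a B b m A n : ℕ) (C c0 : ℝ) (hk : Nat.card X = k)
    (hn : Nat.card V = n) (hk1 : 1 ≤ k) (hC : 0 < C) (hc0 : 0 < c0) (ha : 1 ≤ a) (hB : 1 ≤ B)
    (hA1 : 1 ≤ A)
    (hA : (k * (xbk + 1) * (2 * C + 2 * k * xbk * C) * k + (2 * C + 1)) / c0 < A)
    (hb : A * a ^ 2 ≤ b) (hm : b * B ≤ m) (hmn : a * m ≤ n) :
    ((k * (xbk * a + 1) : ℕ) : ℝ) *
      (((2 * C * (a * B)) + (k * (xbk * a) * (2 * B) : ℕ) * (C * a)) * err X V 4) <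
      c0 * err X V 3 ∧ 2 * (C * (a * B)) + 1 ≤ c0 * n ∧ 0 < n := by
  have hn1 : A * a ^ 3 * B ≤ n := by
    calc A * a ^ 3 * B = a * (A * a ^ 2 * B) := by ring
      _ ≤ a * (b * B) := Nat.mul_le_mul_left _ (Nat.mul_le_mul_right _ hb)
      _ ≤ a * m := Nat.mul_le_mul_left _ hm
      _ ≤ n := hmn
  have hpos : 0 < A * a ^ 3 * B := by positivity
  have hn0 : 0 < n := lt_of_lt_of_le hpos hn1
  have hnR : (A : ℝ) * a ^ 3 * B ≤ n := by exact_mod_cast hn1
  have hn0R : (0 : ℝ) < n := by exact_mod_cast hn0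
  have haR : (1 : ℝ) ≤ a := by exact_mod_cast ha
  have hBR : (1 : ℝ) ≤ B := by exact_mod_cast hB
  have hkR : (1 : ℝ) ≤ k := by exact_mod_cast hk1
  have hxR : (0 : ℝ) ≤ xbk := Nat.cast_nonneg _
  have hAR : (1 : ℝ) ≤ A := by exact_mod_cast hA1
  obtain ⟨C3, hC3⟩ : ∃ C3 : ℝ, C3 = k * (xbk + 1) * (2 * C + 2 * k * xbk * C) := ⟨_, rfl⟩
  rw [← hC3, div_lt_iff₀ hc0] at hA
  have hC3p : 0 < C3 := by rw [hC3]; positivity
  refine ⟨?_, ?_, hn0⟩
  · have e4 : err X V 4 = err X V 3 * (k / n) := by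
      unfold err
      rw [hk, hn, pow_succ]
    have e3 : 0 < err X V 3 := by
      unfold err
      rw [hk, hn]
      positivity
    rw [e4]
    have h1 : ((k * (xbk * a + 1) : ℕ) : ℝ) ≤ k * (xbk + 1) * a := by
      push_cast
      have : (xbk : ℝ) * a + 1 ≤ (xbk + 1) * a := by nlinarith
      nlinarith
    have h2 : (2 * C * (a * B)) + (k * (xbk * a) * (2 * B) : ℕ) * (C * a) ≤
        (2 * C + 2 * k * xbk * C) * (a ^ 2 * B) := by
      push_cast
      have h3 : (a : ℝ) * B ≤ a ^ 2 * B := by nlinarith [mul_nonneg (sub_nonneg.2 haR) (by positivity : (0 : ℝ) ≤ a * B)]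
      have h4 : 2 * C * (a * B) ≤ 2 * C * (a ^ 2 * B) := mul_le_mul_of_nonneg_left h3 (by positivity)
      calc _ ≤ 2 * C * (a ^ 2 * B) + (k * (xbk * a) * (2 * B)) * (C * a) := by linarith
        _ = _ := by ring
    have h5 : 0 ≤ (2 * C * (a * B)) + (k * (xbk * a) * (2 * B) : ℕ) * (C * a) := by positivity
    have h6 : ((k * (xbk * a + 1) : ℕ) : ℝ) *
        ((2 * C * (a * B)) + (k * (xbk * a) * (2 * B) : ℕ) * (C * a)) ≤ C3 * (a ^ 3 * B) := by
      calc _ ≤ (k * (xbk + 1) * a) * ((2 * C + 2 * k * xbk * C) * (a ^ 2 * B)) :=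
            mul_le_mul h1 h2 h5 (by positivity)
        _ = _ := by rw [hC3]; ring
    have h7 : C3 * (a ^ 3 * B) * (k / n) < c0 := by
      rw [mul_div_assoc', div_lt_iff₀ hn0R]
      calc C3 * (a ^ 3 * B) * k = (C3 * k) * (a ^ 3 * B) := by ring
        _ < (c0 * A) * (a ^ 3 * B) := by
            apply mul_lt_mul_of_pos_right _ (by positivity)
            nlinarith
        _ = c0 * (A * a ^ 3 * B) := by ring
        _ ≤ c0 * n := mul_le_mul_of_nonneg_left hnR hc0.le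
    calc _ = (((k * (xbk * a + 1) : ℕ) : ℝ) *
        ((2 * C * (a * B)) + (k * (xbk * a) * (2 * B) : ℕ) * (C * a))) * (k / n) * err X V 3 := by
          ring
      _ ≤ (C3 * (a ^ 3 * B)) * (k / n) * err X V 3 := by
          apply mul_le_mul_of_nonneg_right _ e3.le
          exact mul_le_mul_of_nonneg_right h6 (by positivity)
      _ < c0 * err X V 3 := mul_lt_mul_of_pos_right h7 e3
  · have h1 : 2 * (C * (a * B)) + 1 ≤ (2 * C + 1) * (a ^ 3 * B) := by
      have h2 : (1 : ℝ) ≤ a ^ 3 * B := by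
        have : (1 : ℝ) ≤ a ^ 3 := one_le_pow₀ haR
        nlinarith
      have h3 : (a : ℝ) * B ≤ a ^ 3 * B := by
        have : (a : ℝ) ≤ a ^ 3 := by
          calc (a : ℝ) = a ^ 1 := (pow_one _).symm
            _ ≤ a ^ 3 := pow_le_pow_right₀ haR (by norm_num)
        nlinarith
      nlinarith
    have h4 : 2 * C + 1 ≤ c0 * A := by
      have : 0 ≤ C3 * k := by positivity
      nlinarith
    calc _ ≤ (2 * C + 1) * (a ^ 3 * B) := h1
      _ ≤ (c0 * A) * (a ^ 3 * B) := mul_le_mul_of_nonneg_right h4 (by positivity)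
      _ = c0 * (A * a ^ 3 * B) := by ring
      _ ≤ c0 * n := mul_le_mul_of_nonneg_left hnR hc0.le

end Pool.Agent.K7.H54.FI
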